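import Pool.Agent.W788.BK.Stm

/-! BK-SITE: the value of an approximate solution at one site. -/

set_option autoImplicit false

open scoped BigOperators Matrix
open MeasureTheory

namespace Pool.Agent.W363.BK

open Pool.Agent.W788.BK Pool.Agent.W788.MFP.Four

variable {d L : ℕ} [NeZero L]

theorem cr_neg (q : ZMod L) : cr (-q) = cr q := by
  unfold cr
  rw [ZMod.stdAddChar_apply, ZMod.stdAddChar_apply, AddChar.map_neg_eq_inv]
  simp

theorem Low_neg (θ : ℝ) (q : T d L) : Low θ (-q) ↔ Low θ q := by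
  unfold Low
  simp only [Pi.neg_apply, cr_neg]

theorem hi_neg (θ : ℝ) (q : T d L) : hi θ (-q) = hi θ q := by
  unfold hi
  by_cases h : Low θ q
  · rw [if_pos h, if_pos ((Low_neg θ q).2 h)]
  · rw [if_neg h, if_neg (fun h' => h ((Low_neg θ q).1 h'))]

theorem JJ_ge (E δ : ℝ) (_hδ : 0 < δ) (k : T d L) : δ ≤ JJ E δ k := by
  unfold JJ
  apply Real.le_sqrt_of_sq_le
  nlinarith [sq_nonneg (adj k - E)]

theorem D0_herm (E δ : ℝ) : (D0 (d := d) (L := L) E δ).IsHermitian := by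
  unfold D0 Matrix.IsHermitian
  rw [Matrix.diagonal_conjTranspose]
  congr 1
  funext k
  rw [Pi.star_apply, RCLike.star_def, Complex.conj_ofReal]

theorem AA_herm (E δ θ : ℝ) (y : T d L) : (AA (d := d) (L := L) E δ θ y).IsHermitian := by
  unfold AA Matrix.IsHermitian
  ext k p
  rw [Matrix.conjTranspose_apply, Matrix.of_apply, Matrix.of_apply, RCLike.star_def, map_mul,
    Complex.conj_ofReal, ← e_neg_left, neg_sub, ← hi_neg θ (p - k), neg_sub,
    mul_comm (Real.sqrt (JJ E δ p))⁻¹]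

/-- the Fourier transform of a product -/
theorem conv (a b : T d L → ℝ) (k : T d L) :
    ft (fun x => a x * b x) k = (NN d L : ℂ)⁻¹ * ∑ p, ft a (k - p) * ft b p := by
  have h1 : ∀ p, ft a (k - p) * ft b p =
      ∑ x, ∑ y, (a x : ℂ) * b y * e k x * e p (y - x) := by
    intro p
    unfold ft
    rw [Finset.sum_mul_sum]
    refine Finset.sum_congr rfl fun x _ => Finset.sum_congr rfl fun y _ => ?_
    rw [sub_eq_add_neg k p, e_add_left, e_neg_left, ← e_neg, sub_eq_add_neg y x, e_add]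
    ring
  have h2 : ∑ p, ft a (k - p) * ft b p = (NN d L : ℂ) * ft (fun x => a x * b x) k := by
    rw [Finset.sum_congr rfl fun p _ => h1 p, Finset.sum_comm]
    unfold ft
    rw [Finset.mul_sum]
    refine Finset.sum_congr rfl fun x _ => ?_
    rw [Finset.sum_comm]
    have h3 : ∀ y, ∑ p, (a x : ℂ) * b y * e k x * e p (y - x) =
        (a x : ℂ) * b y * e k x * (if y - x = 0 then (NN d L : ℂ) else 0) := by
      intro y
      rw [← Finset.mul_sum, sum_e]
    rw [Finset.sum_congr rfl fun y _ => h3 y, Finset.sum_eq_single x]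
    · rw [if_pos (sub_self x)]
      push_cast
      ring
    · intro y _ hy
      rw [if_neg (sub_ne_zero.2 hy), mul_zero]
    · intro h
      exact absurd (Finset.mem_univ x) h
  have hN : (NN d L : ℂ) ≠ 0 := by exact_mod_cast (NN_pos (d := d) (L := L)).ne'
  rw [h2, ← mul_assoc, inv_mul_cancel₀ hN, one_mul]

/-- the value at zero -/
theorem at_zero (v : T d L → ℝ) : ∑ k, ft v k = (NN d L : ℂ) * v 0 := by
  unfold ft
  rw [Finset.sum_comm]
  have h1 : ∀ x, ∑ k, (v x : ℂ) * e k x = (v x : ℂ) * (if x = 0 then (NN d L : ℂ) else 0) := by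
    intro x
    rw [← Finset.mul_sum, sum_e]
  rw [Finset.sum_congr rfl fun x _ => h1 x, Finset.sum_eq_single 0]
  · rw [if_pos rfl]
    ring
  · intro x _ hx
    rw [if_neg hx, mul_zero]
  · intro h
    exact absurd (Finset.mem_univ _) h

theorem sum_ft_sq (f : T d L → ℝ) : ∑ k, ‖ft f k‖ ^ 2 = NN d L * ∑ x, f x ^ 2 := by
  have h := sum_sq f
  unfold q at h
  rw [h, ← mul_assoc, mul_inv_cancel₀ NN_pos.ne', one_mul]
  exact Finset.sum_congr rfl fun k _ => by rw [one_mul]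

theorem site : S_SITE := by
  intro d L _ E δ θ η τ hδ hη hτ V v r hv hV
  have hNp : 0 < NN d L := NN_pos
  have hN : (NN d L : ℂ) ≠ 0 := by exact_mod_cast hNp.ne'
  set s : T d L → ℝ := fun k => Real.sqrt (JJ E δ k) with hs
  have hJ : ∀ k : T d L, 0 < JJ E δ k := fun k => hδ.trans_le (JJ_ge E δ hδ k)
  have hsp : ∀ k, 0 < s k := fun k => Real.sqrt_pos.2 (hJ k)
  have hss : ∀ k, s k ^ 2 = JJ E δ k := fun k => Real.sq_sqrt (hJ k).le
  set U : T d L → ℝ := Op (fun Q => 1 - hi θ Q) V with hU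
  have hUx : ∀ x, |U x| ≤ τ := by
    intro x
    have : U x = ∑ y : T d L, V y * K (fun Q => 1 - hi θ Q) (x - y) := by
      rw [hU]
      unfold Op
      exact Finset.sum_congr rfl fun y _ => mul_comm _ _
    rw [this]
    exact hV x
  have hUft : ∀ k, ft U k = ((1 - hi θ k : ℝ) : ℂ) * ft V k :=
    fun k => ft_Op _ _ (fun k => by rw [hi_neg]) k
  -- the equation in momentum space
  have heq : ∀ k, ((adj k - E : ℝ) : ℂ) * ft v k = -ft (fun x => V x * v x) k + ft r k := by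
    intro k
    rw [← ft_Op (fun k => adj k - E) v (fun k => by rw [adj_neg])]
    have h1 : Op (fun k => adj k - E) v = fun x => -(V x * v x) + r x := funext hv
    rw [h1, ft_add]
    congr 1
    unfold ft
    rw [← Finset.sum_neg_distrib]
    exact Finset.sum_congr rfl fun x _ => by push_cast; ring
  set φ : T d L → ℂ := fun k => (s k : ℂ) * ft v k with hφ
  set g : T d L → ℂ := fun k => ((s k)⁻¹ : ℝ) * (ft r k - ft (fun x => U x * v x) k) with hg
  have hsc : ∀ k, (s k : ℂ) ≠ 0 := fun k => by exact_mod_cast (hsp k).ne'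
  have hX : XX (D0 E δ) (AA E δ θ) V *ᵥ φ = g := by
    funext k
    unfold XX
    rw [Matrix.add_mulVec, Pi.add_apply]
    have h1 : (D0 E δ *ᵥ φ) k = (((s k)⁻¹ : ℝ) : ℂ) * (((adj k - E : ℝ) : ℂ) * ft v k) := by
      unfold D0
      rw [Matrix.mulVec_diagonal, hφ]
      have : (((adj k - E) / JJ E δ k : ℝ) : ℂ) * (s k : ℂ) = (((s k)⁻¹ * (adj k - E) : ℝ) : ℂ) := by
        rw [← Complex.ofReal_mul]
        congr 1
        rw [← hss k]
        have := (hsp k).ne'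
        field_simp
      simp only
      rw [← mul_assoc, this]
      push_cast
      ring
    have h2 : ((∑ y, (V y : ℂ) • AA E δ θ y) *ᵥ φ) k =
        (((s k)⁻¹ : ℝ) : ℂ) * ((NN d L : ℂ)⁻¹ * ∑ p, ((hi θ (k - p) : ℝ) : ℂ) * ft V (k - p) *
          ft v p) := by
      have h3 : ∀ p, (∑ y, (V y : ℂ) • AA E δ θ y) k p * φ p =
          (((s k)⁻¹ : ℝ) : ℂ) * ((NN d L : ℂ)⁻¹ * (((hi θ (k - p) : ℝ) : ℂ) * ft V (k - p) *
            ft v p)) := by
        intro p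
        have h4 : (∑ y, (V y : ℂ) • AA E δ θ y) k p =
            (((NN d L)⁻¹ * hi θ (k - p) * ((s k)⁻¹ * (s p)⁻¹) : ℝ) : ℂ) * ft V (k - p) := by
          rw [Matrix.sum_apply]
          unfold ft
          rw [Finset.mul_sum]
          refine Finset.sum_congr rfl fun y _ => ?_
          rw [Matrix.smul_apply, smul_eq_mul]
          unfold AA
          rw [Matrix.of_apply]
          ring
        rw [h4, hφ]
        push_cast
        have := hsc p
        field_simp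
      change ∑ p, (∑ y, (V y : ℂ) • AA E δ θ y) k p * φ p = _
      rw [Finset.sum_congr rfl fun p _ => h3 p, ← Finset.mul_sum, ← Finset.mul_sum]
    rw [h1, h2, heq k, conv V v k, hg]
    simp only
    rw [conv U v k, ← mul_add]
    congr 1
    have h5 : ∑ p, ft U (k - p) * ft v p = ∑ p, ft V (k - p) * ft v p -
        ∑ p, ((hi θ (k - p) : ℝ) : ℂ) * ft V (k - p) * ft v p := by
      rw [← Finset.sum_sub_distrib]
      refine Finset.sum_congr rfl fun p _ => ?_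
      rw [hUft]
      push_cast
      ring
    rw [h5]
    ring
  set ψ : T d L → ℂ := g - ((η : ℂ) * Complex.I) • φ with hψ
  have hφψ : φ = RR (D0 E δ) (AA E δ θ) η V *ᵥ ψ := by
    have h1 := RR_mul (D0_herm (d := d) (L := L) E δ) (fun y => AA_herm E δ θ y) hη V
    have h2 : ψ = (XX (D0 E δ) (AA E δ θ) V - ((η : ℂ) * Complex.I) •
        (1 : Matrix (T d L) (T d L) ℂ)) *ᵥ φ := by
      rw [Matrix.sub_mulVec, Matrix.smul_mulVec, Matrix.one_mulVec, hX]
    rw [h2, Matrix.mulVec_mulVec, h1, Matrix.one_mulVec]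
  -- the value at zero
  have hw : star (w0 (d := d) (L := L) E δ) ⬝ᵥ φ = ((Real.sqrt (NN d L) * v 0 : ℝ) : ℂ) := by
    have h1 : star (w0 (d := d) (L := L) E δ) ⬝ᵥ φ =
        (((Real.sqrt (NN d L))⁻¹ : ℝ) : ℂ) * ∑ k, ft v k := by
      unfold dotProduct
      rw [Finset.mul_sum]
      refine Finset.sum_congr rfl fun k _ => ?_
      rw [Pi.star_apply]
      unfold w0
      rw [RCLike.star_def, Complex.conj_ofReal, hφ]
      push_cast
      have := hsc k
      change (((Real.sqrt (NN d L) : ℝ) : ℂ)⁻¹ * (s k : ℂ)⁻¹) * ((s k : ℂ) * ft v k) = _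
      field_simp
    rw [h1, at_zero, ← Complex.ofReal_mul, ← Complex.ofReal_mul]
    congr 1
    rw [← mul_assoc]
    congr 1
    have h2 : Real.sqrt (NN d L) * Real.sqrt (NN d L) = NN d L := Real.mul_self_sqrt hNp.le
    have h3 : Real.sqrt (NN d L) ≠ 0 := (Real.sqrt_pos.2 hNp).ne'
    rw [inv_mul_eq_div, div_eq_iff h3, h2]
  have hval : NN d L * v 0 ^ 2 = ‖star (w0 (d := d) (L := L) E δ) ⬝ᵥ φ‖ ^ 2 := by
    rw [hw, Complex.norm_real, Real.norm_eq_abs, sq_abs, mul_pow, Real.sq_sqrt hNp.le]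
  have hb1 : ‖star (w0 (d := d) (L := L) E δ) ⬝ᵥ φ‖ ^ 2 ≤
      nsq ((RR (D0 E δ) (AA E δ θ) η V)ᴴ *ᵥ w0 E δ) * nsq ψ := by
    rw [hφψ, adjoint]
    exact cs_star _ _
  have hb2 := (ward (D0_herm (d := d) (L := L) E δ) (fun y => AA_herm E δ θ y) hη V
    (w0 (d := d) (L := L) E δ)).2
  have hb3 : nsq ψ ≤ 3 * NN d L * (δ⁻¹ * ∑ x, r x ^ 2 + δ⁻¹ * τ ^ 2 * ∑ x, v x ^ 2 +
      η ^ 2 * q (JJ E δ) v) := by
    have h1 : ∀ k, ‖ψ k‖ ^ 2 ≤ 3 * (δ⁻¹ * ‖ft r k‖ ^ 2 + δ⁻¹ * ‖ft (fun x => U x * v x) k‖ ^ 2 +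
        η ^ 2 * (JJ E δ k * ‖ft v k‖ ^ 2)) := by
      intro k
      have e1 : ψ k = (((s k)⁻¹ : ℝ) : ℂ) * ft r k - (((s k)⁻¹ : ℝ) : ℂ) *
          ft (fun x => U x * v x) k - ((η : ℂ) * Complex.I) * ((s k : ℂ) * ft v k) := by
        rw [hψ, hg, hφ]
        simp only [Pi.sub_apply, Pi.smul_apply, smul_eq_mul]
        ring
      have e2 : ‖ψ k‖ ≤ (s k)⁻¹ * ‖ft r k‖ + (s k)⁻¹ * ‖ft (fun x => U x * v x) k‖ +
          η * (s k * ‖ft v k‖) := by
        rw [e1]
        refine (norm_sub_le _ _).trans (add_le_add ((norm_sub_le _ _).trans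
          (add_le_add (le_of_eq ?_) (le_of_eq ?_))) (le_of_eq ?_))
        · rw [norm_mul, Complex.norm_real, Real.norm_eq_abs, abs_of_pos (inv_pos.2 (hsp k))]
        · rw [norm_mul, Complex.norm_real, Real.norm_eq_abs, abs_of_pos (inv_pos.2 (hsp k))]
        · rw [norm_mul, norm_mul, norm_mul, Complex.norm_I, mul_one, Complex.norm_real,
            Complex.norm_real, Real.norm_eq_abs, Real.norm_eq_abs, abs_of_pos hη,
            abs_of_pos (hsp k)]
      have e3 : ((s k)⁻¹) ^ 2 ≤ δ⁻¹ := by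
        rw [inv_pow, hss k]
        exact inv_anti₀ hδ (JJ_ge E δ hδ k)
      have e4 : ‖ψ k‖ ^ 2 ≤ ((s k)⁻¹ * ‖ft r k‖ + (s k)⁻¹ * ‖ft (fun x => U x * v x) k‖ +
          η * (s k * ‖ft v k‖)) ^ 2 := pow_le_pow_left₀ (norm_nonneg _) e2 2
      have e5 : ∀ a b c : ℝ, (a + b + c) ^ 2 ≤ 3 * (a ^ 2 + b ^ 2 + c ^ 2) := fun a b c => by
        nlinarith [sq_nonneg (a - b), sq_nonneg (b - c), sq_nonneg (a - c)]
      refine e4.trans ((e5 _ _ _).trans ?_)
      rw [mul_pow, mul_pow, mul_pow, mul_pow, hss k]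
      have e6 := mul_le_mul_of_nonneg_right e3 (sq_nonneg ‖ft r k‖)
      have e7 := mul_le_mul_of_nonneg_right e3 (sq_nonneg ‖ft (fun x => U x * v x) k‖)
      linarith
    have h2 : nsq ψ ≤ 3 * (δ⁻¹ * ∑ k, ‖ft r k‖ ^ 2 + δ⁻¹ * ∑ k, ‖ft (fun x => U x * v x) k‖ ^ 2 +
        η ^ 2 * ∑ k, JJ E δ k * ‖ft v k‖ ^ 2) := by
      unfold nsq
      refine (Finset.sum_le_sum fun k _ => h1 k).trans (le_of_eq ?_)
      rw [← Finset.mul_sum, Finset.sum_add_distrib, Finset.sum_add_distrib, ← Finset.mul_sum,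
        ← Finset.mul_sum, ← Finset.mul_sum]
    have h3 : ∑ k, JJ E δ k * ‖ft v k‖ ^ 2 = NN d L * q (JJ E δ) v := by
      unfold q
      rw [← mul_assoc, mul_inv_cancel₀ hNp.ne', one_mul]
    rw [sum_ft_sq, sum_ft_sq, h3] at h2
    have h4 : ∑ x, (U x * v x) ^ 2 ≤ τ ^ 2 * ∑ x, v x ^ 2 := by
      rw [Finset.mul_sum]
      refine Finset.sum_le_sum fun x _ => ?_
      rw [mul_pow]
      refine mul_le_mul_of_nonneg_right ?_ (sq_nonneg _)
      rw [← sq_abs]
      exact pow_le_pow_left₀ (abs_nonneg _) (hUx x) 2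
    have h5 : δ⁻¹ * (NN d L * ∑ x, (U x * v x) ^ 2) ≤
        δ⁻¹ * (NN d L * (τ ^ 2 * ∑ x, v x ^ 2)) := by gcongr
    linarith
  have hI : 0 ≤ nsq ((RR (D0 E δ) (AA E δ θ) η V)ᴴ *ᵥ w0 (d := d) (L := L) E δ) := nsq_nonneg _
  have hfin : NN d L * v 0 ^ 2 ≤ nsq ((RR (D0 E δ) (AA E δ θ) η V)ᴴ *ᵥ w0 (d := d) (L := L) E δ) *
      (3 * NN d L * (δ⁻¹ * ∑ x, r x ^ 2 + δ⁻¹ * τ ^ 2 * ∑ x, v x ^ 2 + η ^ 2 * q (JJ E δ) v)) := by
    rw [hval]
    exact hb1.trans (mul_le_mul_of_nonneg_left hb3 hI)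
  have hn : nsq ((RR (D0 E δ) (AA E δ θ) η V)ᴴ *ᵥ w0 (d := d) (L := L) E δ) =
      (star (w0 (d := d) (L := L) E δ) ⬝ᵥ (RR (D0 E δ) (AA E δ θ) η V *ᵥ w0 E δ)).im / η := by
    rw [hb2]
    field_simp
  rw [hn] at hfin
  refine le_of_mul_le_mul_left ?_ hNp
  refine hfin.trans (le_of_eq ?_)
  ring

end Pool.Agent.W363.BK
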